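import Mathlib
import Pool.Agent.Hhelper59.Rk.Basic

/-!
# Traces on a maximum blue clique, with binomial weights
-/

namespace Pool.Agent.RkG

open Finset Pool.Agent.Hhelper59.Rk

/-- The weighted number of sets between `T` and `I`. -/
theorem sum_weight {α : Type*} [DecidableEq α] (I T : Finset α) (hT : T ⊆ I) (q : ℝ) :
    ∑ S ∈ I.powerset, (if T ⊆ S then q ^ S.card * (1 - q) ^ (I.card - S.card) else 0) =
      q ^ T.card := by
  have h := Finset.prod_add (fun _ : α => q) (fun v => if v ∈ T then (0 : ℝ) else 1 - q) I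
  have h1 : ∏ i ∈ I, (q + if i ∈ T then (0 : ℝ) else 1 - q) = q ^ T.card := by
    have h2 : ∀ i ∈ I, (q + if i ∈ T then (0 : ℝ) else 1 - q) = if i ∈ T then q else 1 := by
      intro i _
      by_cases hi : i ∈ T
      · simp [hi]
      · simp [hi]
    rw [Finset.prod_congr rfl h2, Finset.prod_ite, Finset.prod_const, Finset.prod_const_one,
      mul_one, Finset.filter_mem_eq_inter, Finset.inter_eq_right.mpr hT]
  rw [← h1, h]
  refine Finset.sum_congr rfl fun S hS => ?_
  rw [Finset.mem_powerset] at hS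
  rw [Finset.prod_const]
  by_cases hTS : T ⊆ S
  · rw [if_pos hTS]
    have h3 : ∀ i ∈ I \ S, (if i ∈ T then (0 : ℝ) else 1 - q) = 1 - q := by
      intro i hi
      rw [Finset.mem_sdiff] at hi
      rw [if_neg (fun h => hi.2 (hTS h))]
    rw [Finset.prod_congr rfl h3, Finset.prod_const, Finset.card_sdiff_of_subset hS]
  · rw [if_neg hTS]
    obtain ⟨v, hv, hvS⟩ := Finset.not_subset.mp hTS
    rw [Finset.prod_eq_zero (i := v) (Finset.mem_sdiff.mpr ⟨hT hv, hvS⟩) (by simp [hv]), mul_zero]

/-- One term of the binomial expansion of `(y + (1 - y))^(k + s)`. -/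
theorem choose_mul_le (k s : ℕ) {y : ℝ} (hy : 0 ≤ y) (hy1 : y ≤ 1) :
    ((k + s).choose k : ℝ) * (y ^ s * (1 - y) ^ k) ≤ 1 := by
  have h := add_pow (1 - y) y (k + s)
  have h0 : (1 - y) + y = 1 := by ring
  rw [h0, one_pow] at h
  have h1 : (1 - y) ^ k * y ^ (k + s - k) * ((k + s).choose k : ℝ) ≤
      ∑ m ∈ Finset.range (k + s + 1), (1 - y) ^ m * y ^ (k + s - m) * ((k + s).choose m : ℝ) := by
    refine Finset.single_le_sum (f := fun m : ℕ => (1 - y) ^ m * y ^ (k + s - m) *
      ((k + s).choose m : ℝ)) (fun m _ => ?_) (Finset.mem_range.mpr (by omega))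
    have : 0 ≤ 1 - y := by linarith
    positivity
  rw [← h, Nat.add_sub_cancel_left] at h1
  calc _ = (1 - y) ^ k * y ^ s * ((k + s).choose k : ℝ) := by ring
    _ ≤ 1 := h1

variable {n k l : ℕ} (G : SimpleGraph (Fin n))

/-- The vertices whose trace lies in `S` contain fewer than `C(k+s, k)` elements. -/
theorem card_trace_lt (h1 : G.CliqueFree (k + 1)) [DecidableRel G.Adj]
    (I : Finset (Fin n)) (hI : Gᶜ.IsClique I)
    (hmax : ∀ J : Finset (Fin n), Gᶜ.IsClique J → J.card ≤ I.card)
    (S : Finset (Fin n)) (hS : S ⊆ I) :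
    (Finset.univ.filter (fun x => I.filter (fun v => v = x ∨ G.Adj x v) ⊆ S)).card <
      (k + S.card).choose k := by
  classical
  by_contra hcon
  push Not at hcon
  rcases erdos_szekeres G k S.card _ hcon with ⟨t, ht, hc⟩ | ⟨t, ht, hc⟩
  · exact h1 _ hc
  · have htr : ∀ b ∈ t, ∀ a ∈ I, a ∉ S → a ≠ b ∧ ¬ G.Adj b a := by
      intro b hb a ha haS
      have := ht hb
      rw [Finset.mem_filter] at this
      refine ⟨fun h => haS (this.2 (Finset.mem_filter.mpr ⟨ha, Or.inl h⟩)),
        fun h => haS (this.2 (Finset.mem_filter.mpr ⟨ha, Or.inr h⟩))⟩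
    have hdisj : Disjoint (I \ S) t := by
      rw [Finset.disjoint_left]
      intro x hx hxt
      rw [Finset.mem_sdiff] at hx
      exact (htr x hxt x hx.1 hx.2).1 rfl
    have hcl : Gᶜ.IsClique ((I \ S ∪ t : Finset (Fin n)) : Set (Fin n)) := by
      intro x hx y hy hxy
      rw [Finset.mem_coe, Finset.mem_union] at hx hy
      have key : ∀ a ∈ I \ S, ∀ b ∈ t, Gᶜ.Adj a b := by
        intro a ha b hb
        rw [Finset.mem_sdiff] at ha
        have := htr b hb a ha.1 ha.2
        rw [SimpleGraph.compl_adj]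
        exact ⟨this.1, fun h => this.2 h.symm⟩
      rcases hx with hx | hx <;> rcases hy with hy | hy
      · exact hI (Finset.mem_coe.mpr (Finset.mem_sdiff.mp hx).1)
          (Finset.mem_coe.mpr (Finset.mem_sdiff.mp hy).1) hxy
      · exact key x hx y hy
      · exact (key y hy x hx).symm
      · exact hc.1 (Finset.mem_coe.mpr hx) (Finset.mem_coe.mpr hy) hxy
    have h4 := hmax _ hcl
    rw [Finset.card_union_of_disjoint hdisj, hc.2, Finset.card_sdiff_of_subset hS] at h4
    have := Finset.card_le_card hS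
    omega

/-- The main counting inequality. -/
theorem core (h1 : G.CliqueFree (k + 1)) (h2 : Gᶜ.CliqueFree l) {R : ℕ}
    (hdeg : ∀ (v : Fin n) (s : Finset (Fin n)), (∀ w ∈ s, G.Adj v w) → s.card < R)
    (hn : 0 < n) {q y : ℝ} (hq : 0 < q) (hq1 : q ≤ 1) (hy : 0 < y) (hy1 : y < 1) :
    (n : ℝ) * Real.exp (Real.log q * (l * R / n)) ≤ (1 - q + q / y) ^ l / (1 - y) ^ k := by
  classical
  obtain ⟨I, hI, hmax⟩ : ∃ I : Finset (Fin n), Gᶜ.IsClique I ∧
      ∀ J : Finset (Fin n), Gᶜ.IsClique J → J.card ≤ I.card := by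
    obtain ⟨I, hI, hmax⟩ := Finset.exists_max_image
      (Finset.univ.filter (fun J : Finset (Fin n) => Gᶜ.IsClique J)) Finset.card
      ⟨∅, by simp⟩
    rw [Finset.mem_filter] at hI
    exact ⟨I, hI.2, fun J hJ => hmax J (Finset.mem_filter.mpr ⟨Finset.mem_univ _, hJ⟩)⟩
  have hIl : I.card ≤ l := by
    by_contra hcon
    push Not at hcon
    obtain ⟨J, hJI, hJ⟩ := Finset.exists_subset_card_eq hcon.le
    exact h2 J ⟨hI.subset (by exact_mod_cast hJI), hJ⟩
  set tr : Fin n → Finset (Fin n) := fun x => I.filter (fun v => v = x ∨ G.Adj x v) with htr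
  have htrI : ∀ x, tr x ⊆ I := fun x => Finset.filter_subset _ _
  -- the traces are small on average
  have hsum : ∑ x, (tr x).card ≤ I.card * R := by
    have e1 : ∑ x, (tr x).card =
        ∑ v ∈ I, (Finset.univ.filter (fun x => v = x ∨ G.Adj x v)).card := by
      simp only [htr, Finset.card_filter]
      rw [Finset.sum_comm]
    rw [e1, ← smul_eq_mul, ← Finset.sum_const]
    refine Finset.sum_le_sum fun v _ => ?_
    have h3 : (Finset.univ.filter (fun x => v = x ∨ G.Adj x v)) ⊆
        insert v (Finset.univ.filter (fun x => G.Adj v x)) := by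
      intro x hx
      rw [Finset.mem_filter] at hx
      rw [Finset.mem_insert, Finset.mem_filter]
      rcases hx.2 with h | h
      · exact Or.inl h.symm
      · exact Or.inr ⟨Finset.mem_univ _, h.symm⟩
    have h4 := (Finset.card_le_card h3).trans (Finset.card_insert_le _ _)
    have h5 := hdeg v (Finset.univ.filter (fun x => G.Adj v x)) (fun w hw => by
      rw [Finset.mem_filter] at hw
      exact hw.2)
    omega
  -- double counting with weights
  set m := I.card with hm
  have hnR : (0 : ℝ) < n := by exact_mod_cast hn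
  have hlq : Real.log q ≤ 0 := Real.log_nonpos hq.le hq1
  have hle1 : ∑ x, q ^ (tr x).card ≤ (1 - q + q / y) ^ m / (1 - y) ^ k := by
    have e1 : ∑ x, q ^ (tr x).card = ∑ S ∈ I.powerset, q ^ S.card * (1 - q) ^ (m - S.card) *
        ((Finset.univ.filter (fun x => tr x ⊆ S)).card : ℝ) := by
      have e2 : ∀ x : Fin n, q ^ (tr x).card = ∑ S ∈ I.powerset,
          (if tr x ⊆ S then q ^ S.card * (1 - q) ^ (m - S.card) else 0) := fun x =>
        (sum_weight I (tr x) (htrI x) q).symm
      rw [Finset.sum_congr rfl (fun x _ => e2 x), Finset.sum_comm]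
      refine Finset.sum_congr rfl fun S _ => ?_
      rw [← Finset.sum_filter, Finset.sum_const, nsmul_eq_mul]
      ring
    rw [e1]
    have hy' : (0 : ℝ) < 1 - y := by linarith
    have hq' : (0 : ℝ) ≤ 1 - q := by linarith
    have e3 : (1 - q + q / y) ^ m = ∑ S ∈ I.powerset, (q / y) ^ S.card * (1 - q) ^ (m - S.card) := by
      have := Finset.sum_pow_mul_eq_add_pow (q / y) (1 - q) I
      rw [this]
      congr 1
      ring
    rw [e3, Finset.sum_div]
    refine Finset.sum_le_sum fun S hS => ?_
    rw [Finset.mem_powerset] at hS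
    have h6 := card_trace_lt G h1 I hI hmax S hS
    have h7 : ((Finset.univ.filter (fun x => tr x ⊆ S)).card : ℝ) ≤
        ((k + S.card).choose k : ℝ) := by exact_mod_cast h6.le
    have h8 := choose_mul_le k S.card hy.le hy1.le
    have hpos : 0 < y ^ S.card * (1 - y) ^ k := by positivity
    have h9 : ((Finset.univ.filter (fun x => tr x ⊆ S)).card : ℝ) ≤
        1 / (y ^ S.card * (1 - y) ^ k) := by
      rw [le_div_iff₀ hpos]
      exact (mul_le_mul_of_nonneg_right h7 hpos.le).trans h8
    calc _ ≤ q ^ S.card * (1 - q) ^ (m - S.card) * (1 / (y ^ S.card * (1 - y) ^ k)) := by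
          gcongr
      _ = _ := by
          rw [div_pow]
          field_simp
  have hge1 : (n : ℝ) * Real.exp (Real.log q * (l * R / n)) ≤ ∑ x, q ^ (tr x).card := by
    have hterm : ∀ x, Real.exp (Real.log q * (l * R / n)) *
        (1 + Real.log q * ((tr x).card - l * R / n)) ≤ q ^ (tr x).card := by
      intro x
      have e4 : q ^ (tr x).card = Real.exp (Real.log q * (l * R / n)) *
          Real.exp (Real.log q * ((tr x).card - l * R / n)) := by
        rw [← Real.exp_add, ← mul_add]
        have : (l * R / n : ℝ) + ((tr x).card - l * R / n) = (tr x).card := by ring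
        rw [this, ← Real.rpow_natCast, Real.rpow_def_of_pos hq]
      rw [e4]
      refine mul_le_mul_of_nonneg_left ?_ (Real.exp_pos _).le
      have := Real.add_one_le_exp (Real.log q * ((tr x).card - l * R / n))
      linarith
    refine le_trans ?_ (Finset.sum_le_sum fun x _ => hterm x)
    rw [← Finset.mul_sum, mul_comm]
    refine mul_le_mul_of_nonneg_left ?_ (Real.exp_pos _).le
    rw [Finset.sum_add_distrib, ← Finset.mul_sum, Finset.sum_sub_distrib, Finset.sum_const,
      Finset.sum_const, Finset.card_univ, Fintype.card_fin, nsmul_eq_mul, nsmul_eq_mul, mul_one]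
    have h10 : (∑ x, ((tr x).card : ℝ)) ≤ l * R := by
      have : (∑ x, ((tr x).card : ℝ)) ≤ (m : ℝ) * R := by exact_mod_cast hsum
      refine this.trans ?_
      have : (m : ℝ) ≤ l := by exact_mod_cast hIl
      gcongr
    have h11 : (n : ℝ) * (l * R / n) = l * R := by field_simp
    rw [h11]
    nlinarith
  refine hge1.trans (hle1.trans ?_)
  have h12 : (1 : ℝ) ≤ 1 - q + q / y := by
    have : q ≤ q / y := by
      rw [le_div_iff₀ hy]
      nlinarith
    linarith
  have hy' : (0 : ℝ) < 1 - y := by linarith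
  gcongr

end Pool.Agent.RkG
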