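import Mathlib
import Pool.Agent.Hhelper59.Rk.Basic
import Pool.Agent.Hhelper59.Rk.Lower
import Pool.Agent.RkG.Core

/-!
# The entropy bound for consecutive Ramsey numbers
-/

namespace Pool.Agent.RkG

open Finset Filter Pool.Agent.Hhelper59.Rk

theorem ramsey_pos {k l : ℕ} (hk : 1 ≤ k) (hl : 1 ≤ l) : 1 ≤ ramsey k l := by
  by_contra hc
  have h0 : ramsey k l = 0 := by omega
  obtain ⟨k, rfl⟩ : ∃ a, k = a + 1 := ⟨k - 1, by omega⟩
  obtain ⟨l, rfl⟩ : ∃ a, l = a + 1 := ⟨l - 1, by omega⟩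
  rcases ramsey_spec (⊥ : SimpleGraph (Fin 1)) k l ∅ (by simp [h0]) with ⟨t, ht, hc⟩ | ⟨t, ht, hc⟩
  · have := hc.2
    rw [Finset.subset_empty.mp ht] at this
    simp at this
  · have := hc.2
    rw [Finset.subset_empty.mp ht] at this
    simp at this

theorem ramsey_mem {k l : ℕ} (hk : 1 ≤ k) (hl : 1 ≤ l) (G : SimpleGraph (Fin (ramsey k l))) :
    ¬ G.CliqueFree k ∨ ¬ Gᶜ.CliqueFree l := by
  obtain ⟨k, rfl⟩ : ∃ a, k = a + 1 := ⟨k - 1, by omega⟩
  obtain ⟨l, rfl⟩ : ∃ a, l = a + 1 := ⟨l - 1, by omega⟩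
  have h : ramsey (k + 1) (l + 1) ∈ {n : ℕ | ∀ G : SimpleGraph (Fin n),
      ¬ G.CliqueFree (k + 1) ∨ ¬ Gᶜ.CliqueFree (l + 1)} :=
    Nat.sInf_mem ⟨_, choose_mem k l⟩
  exact h G

theorem ramsey_mono_left {k l : ℕ} (hl : 1 ≤ l) : ramsey k l ≤ ramsey (k + 1) l := by
  refine Nat.sInf_le fun G => ?_
  rcases ramsey_mem (by omega) hl G with h | h
  · exact Or.inl fun hf => h (hf.mono (by omega))
  · exact Or.inr h

theorem ramsey_mono_right {k l : ℕ} (hk : 1 ≤ k) : ramsey k l ≤ ramsey k (l + 1) := by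
  refine Nat.sInf_le fun G => ?_
  rcases ramsey_mem hk (by omega) G with h | h
  · exact Or.inl h
  · exact Or.inr fun hf => h (hf.mono (by omega))

/-- The extremal graph for `R(k+1, l)` and its degrees. -/
theorem exists_extremal {k l N : ℕ} (hk : 1 ≤ k) (hl : 1 ≤ l) (hN : N < ramsey (k + 1) l) :
    ∃ G : SimpleGraph (Fin N), G.CliqueFree (k + 1) ∧ Gᶜ.CliqueFree l ∧
      ∀ (v : Fin N) (s : Finset (Fin N)), (∀ w ∈ s, G.Adj v w) → s.card < ramsey k l := by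
  have hmem := Nat.notMem_of_lt_sInf hN
  have hmem2 : ¬ ∀ G : SimpleGraph (Fin N), ¬ G.CliqueFree (k + 1) ∨ ¬ Gᶜ.CliqueFree l := hmem
  simp only [not_forall, not_or, not_not] at hmem2
  obtain ⟨G, h1, h2⟩ := hmem2
  refine ⟨G, h1, h2, fun v s hs => ?_⟩
  by_contra hcon
  push Not at hcon
  obtain ⟨k, rfl⟩ : ∃ a, k = a + 1 := ⟨k - 1, by omega⟩
  obtain ⟨l, rfl⟩ : ∃ a, l = a + 1 := ⟨l - 1, by omega⟩
  rcases ramsey_spec G k l s hcon with ⟨t, ht, hc⟩ | ⟨t, ht, hc⟩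
  · exact h1 _ (hc.insert (a := v) (fun w hw => hs w (ht hw)))
  · exact h2 t hc

/-- **The entropy bound.** With `R = R(k,l)` and `N = R(k+1,l) - 1`: if `N/R` is at least the
ratio `1 + l/k` of the binomial coefficients, then
`N ≤ exp(l h(R/N) + k h(l R/(k N)))`, `h` the binary entropy (natural logarithm). -/
theorem entropy_bound {k l N : ℕ} (hk : 1 ≤ k) (hl : 1 ≤ l) (hN : N < ramsey (k + 1) l)
    (hR : ramsey k l * (k + l) ≤ N * k) :
    (N : ℝ) ≤ Real.exp (l * Real.binEntropy (ramsey k l / N) +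
      k * Real.binEntropy (l * ramsey k l / (k * N))) := by
  have hRpos : 1 ≤ ramsey k l := ramsey_pos hk hl
  have hNpos : 0 < N := by
    rcases Nat.eq_zero_or_pos N with h | h
    · rw [h, zero_mul] at hR
      have : 0 < ramsey k l * (k + l) := Nat.mul_pos hRpos (by omega)
      omega
    · exact h
  obtain ⟨G, h1, h2, hdeg⟩ := exists_extremal hk hl hN
  have hkR : (0 : ℝ) < k := by exact_mod_cast hk
  have hlR : (0 : ℝ) < l := by exact_mod_cast hl
  have hNR : (0 : ℝ) < N := by exact_mod_cast hNpos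
  have hRR : (0 : ℝ) < ramsey k l := by exact_mod_cast hRpos
  have hR' : (ramsey k l : ℝ) * (k + l) ≤ N * k := by exact_mod_cast hR
  set R : ℝ := (ramsey k l : ℝ) with hRdef
  set τ : ℝ := R / N with hτ
  set y : ℝ := l * R / (k * N) with hy
  have hτ0 : 0 < τ := by positivity
  have hy0 : 0 < y := by positivity
  have hky : k * y = l * τ := by
    rw [hy, hτ]; field_simp
  have hsum : τ + y ≤ 1 := by
    have : τ + y = R * (k + l) / (N * k) := by
      rw [hy, hτ]; field_simp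
    rw [this, div_le_one (by positivity)]
    exact hR'
  have hτ1 : 0 < 1 - τ := by linarith
  have hy1 : 0 < 1 - y := by linarith
  set q : ℝ := τ * y / ((1 - τ) * (1 - y)) with hq
  have hq0 : 0 < q := by positivity
  have hq1 : q ≤ 1 := by
    rw [hq, div_le_one (by positivity)]
    nlinarith
  have hcore := core (l := l) G h1 h2 hdeg hNpos hq0 hq1 hy0 (by linarith)
  have e1 : (l : ℝ) * (ramsey k l : ℝ) / N = l * τ := by
    rw [hτ]; ring
  have e2 : 1 - q + q / y = (1 - τ)⁻¹ := by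
    rw [hq]; field_simp; ring
  rw [e1, e2] at hcore
  have e3 : ((1 - τ)⁻¹) ^ l / (1 - y) ^ k =
      Real.exp (-(l * Real.log (1 - τ)) - k * Real.log (1 - y)) := by
    rw [Real.exp_sub, ← Real.log_rpow hy1, Real.exp_log (by positivity), Real.rpow_natCast,
      ← mul_neg, ← Real.log_inv, ← Real.log_rpow (by positivity), Real.exp_log (by positivity),
      Real.rpow_natCast]
  rw [e3] at hcore
  have e4 : Real.log q = Real.log τ + Real.log y - Real.log (1 - τ) - Real.log (1 - y) := by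
    rw [hq, Real.log_div (by positivity) (by positivity), Real.log_mul hτ0.ne' hy0.ne',
      Real.log_mul hτ1.ne' hy1.ne']
    ring
  have e5 : (l * Real.binEntropy τ + k * Real.binEntropy y : ℝ) =
      (-(l * Real.log (1 - τ)) - k * Real.log (1 - y)) - Real.log q * (l * τ) := by
    rw [e4, Real.binEntropy, Real.binEntropy, Real.log_inv, Real.log_inv, Real.log_inv,
      Real.log_inv]
    linear_combination (Real.log (1 - y) - Real.log y) * hky
  rw [e5, Real.exp_sub, le_div_iff₀ (Real.exp_pos _)]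
  exact hcore

/-- The diagonal case. -/
theorem entropy_diag {k N : ℕ} (hk : 1 ≤ k) (hN : N < ramsey (k + 1) k)
    (hR : 2 * ramsey k k ≤ N) :
    (N : ℝ) ≤ Real.exp (2 * k * Real.binEntropy (ramsey k k / N)) := by
  have h := entropy_bound hk hk hN (by nlinarith)
  have hkR : (k : ℝ) ≠ 0 := by
    have : (0 : ℝ) < k := by exact_mod_cast hk
    exact this.ne'
  rw [mul_div_mul_left _ _ hkR] at h
  refine h.trans (le_of_eq ?_)
  congr 1
  ring

/-- The ratio `R(k+1,k) / R(k,k)`. -/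
noncomputable def rho (k : ℕ) : ℝ := (ramsey (k + 1) k : ℝ) / ramsey k k

theorem rho_ge_one {k : ℕ} (hk : 1 ≤ k) : 1 ≤ rho k := by
  have h : (0 : ℝ) < ramsey k k := by exact_mod_cast ramsey_pos hk hk
  rw [rho, le_div_iff₀ h, one_mul]
  exact_mod_cast ramsey_mono_left hk

theorem prod_rho_le (K : ℕ) : ∏ k ∈ Finset.Icc 1 K, rho k ≤ ramsey (K + 1) (K + 1) := by
  induction K with
  | zero =>
    simp only [zero_add, show Finset.Icc 1 0 = (∅ : Finset ℕ) from rfl, Finset.prod_empty]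
    exact_mod_cast ramsey_pos le_rfl le_rfl
  | succ K ih =>
    rw [Finset.prod_Icc_succ_top (by omega)]
    have h : (0 : ℝ) < ramsey (K + 1) (K + 1) := by
      exact_mod_cast ramsey_pos (by omega) (by omega)
    calc _ ≤ (ramsey (K + 1) (K + 1) : ℝ) * rho (K + 1) := by
          have := rho_ge_one (k := K + 1) (by omega)
          exact mul_le_mul_of_nonneg_right ih (by linarith)
      _ = ramsey (K + 1 + 1) (K + 1) := by
          rw [rho]; field_simp
      _ ≤ _ := by exact_mod_cast ramsey_mono_right (by omega)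

theorem prod_rho_le' {K : ℕ} (hK : 1 ≤ K) : ∏ k ∈ Finset.Icc 1 K, rho k ≤ ramsey (K + 1) K := by
  obtain ⟨K, rfl⟩ : ∃ a, K = a + 1 := ⟨K - 1, by omega⟩
  rw [Finset.prod_Icc_succ_top (by omega)]
  have h : (0 : ℝ) < ramsey (K + 1) (K + 1) := by
    exact_mod_cast ramsey_pos (by omega) (by omega)
  calc _ ≤ (ramsey (K + 1) (K + 1) : ℝ) * rho (K + 1) := by
        have := rho_ge_one (k := K + 1) (by omega)
        exact mul_le_mul_of_nonneg_right (prod_rho_le K) (by linarith)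
    _ = ramsey (K + 1 + 1) (K + 1) := by
        rw [rho]; field_simp

theorem tendsto_ramsey : Tendsto (fun k : ℕ => (ramsey k k : ℝ)) atTop atTop := by
  refine tendsto_natCast_atTop_atTop.comp ?_
  refine Filter.tendsto_atTop.2 fun b => eventually_atTop.2 ⟨max 4 (b ^ 2), fun K hK => ?_⟩
  have h4 : 4 ≤ K := (le_max_left _ _).trans hK
  have hb : b ^ 2 ≤ K := (le_max_right _ _).trans hK
  by_contra hcon
  push Not at hcon
  have h := two_pow_le K h4
  have h2 : K < 2 ^ K := Nat.lt_two_pow_self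
  have h3 : (ramsey K K) ^ 2 ≤ b ^ 2 := Nat.pow_le_pow_left hcon.le 2
  omega

/-- If `ρ_K ≥ M` then the Ramsey numbers are small. -/
theorem keyN {M : ℝ} (hM : 2 < M) {ε : ℝ} (hε : 0 < ε) :
    ∃ K0 : ℕ, ∀ K ≥ K0, 1 ≤ K ∧ (M ≤ rho K → ∃ N : ℕ, ramsey (K + 1) K = N + 1 ∧
      ramsey K K ≤ N ∧ (N : ℝ) ≤ Real.exp (K * (2 * Real.binEntropy M⁻¹ + ε))) := by
  have hlim : Tendsto (fun x : ℝ => (M - x⁻¹)⁻¹) atTop (nhds M⁻¹) := by
    have h1 : Tendsto (fun x : ℝ => M - x⁻¹) atTop (nhds (M - 0)) :=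
      tendsto_const_nhds.sub tendsto_inv_atTop_zero
    rw [sub_zero] at h1
    exact h1.inv₀ (by linarith)
  have hlim2 := (Real.binEntropy_continuous.tendsto M⁻¹).comp hlim
  have hM2 : M⁻¹ < 2⁻¹ := by
    apply inv_strictAnti₀ (by norm_num) hM
  have ev1 : ∀ᶠ x : ℝ in atTop, Real.binEntropy ((M - x⁻¹)⁻¹) < Real.binEntropy M⁻¹ + ε / 2 :=
    hlim2.eventually (gt_mem_nhds (by linarith))
  have ev2 : ∀ᶠ x : ℝ in atTop, (M - x⁻¹)⁻¹ < 2⁻¹ := hlim.eventually (gt_mem_nhds hM2)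
  have ev3 : ∀ᶠ x : ℝ in atTop, (M - 2)⁻¹ ≤ x := eventually_ge_atTop _
  have ev := tendsto_ramsey.eventually (ev1.and (ev2.and ev3))
  obtain ⟨K0, hK0⟩ := eventually_atTop.1 (ev.and (eventually_ge_atTop 1))
  refine ⟨K0, fun K hK => ⟨(hK0 K hK).2, fun hρ => ?_⟩⟩
  obtain ⟨⟨h1, h2, h3⟩, hK1⟩ := hK0 K hK
  have hR : (0 : ℝ) < ramsey K K := by exact_mod_cast ramsey_pos hK1 hK1
  obtain ⟨N, hN⟩ : ∃ N, ramsey (K + 1) K = N + 1 :=
    ⟨ramsey (K + 1) K - 1, by have := ramsey_pos (k := K + 1) (by omega) hK1; omega⟩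
  have hρ' : M * ramsey K K ≤ N + 1 := by
    rw [rho, le_div_iff₀ hR, hN] at hρ
    exact_mod_cast hρ
  set R : ℝ := (ramsey K K : ℝ) with hRdef
  have hM2' : 0 < M - 2 := by linarith
  have h4 : 1 ≤ (M - 2) * R := by
    rw [inv_le_iff_one_le_mul₀ hM2'] at h3
    linarith
  have h5 : 2 * R ≤ N := by nlinarith
  have hNR : (0 : ℝ) < N := by linarith
  have h6 : 2 * ramsey K K ≤ N := by
    rw [hRdef] at h5
    exact_mod_cast h5
  have h7 := entropy_diag hK1 (by omega : N < ramsey (K + 1) K) h6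
  have hx : R⁻¹ ≤ M - 2 := by
    rw [inv_le_iff_one_le_mul₀ hR]
    exact h4
  have h8 : R / N ≤ (M - R⁻¹)⁻¹ := by
    rw [div_le_iff₀ hNR, ← div_eq_inv_mul, le_div_iff₀ (by linarith)]
    have : R * (M - R⁻¹) = M * R - 1 := by field_simp
    rw [this]
    linarith
  have h9 : Real.binEntropy (R / N) ≤ Real.binEntropy ((M - R⁻¹)⁻¹) := by
    refine Real.binEntropy_strictMonoOn.monotoneOn ⟨by positivity, ?_⟩ ⟨?_, h2.le⟩ h8
    · exact h8.trans h2.le
    · exact (by positivity : (0 : ℝ) ≤ R / N).trans h8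
  have h10 : (N : ℝ) ≤ Real.exp (K * (2 * Real.binEntropy M⁻¹ + ε)) := by
    refine h7.trans (Real.exp_le_exp.mpr ?_)
    have hKR : (0 : ℝ) ≤ K := Nat.cast_nonneg _
    have h1' : Real.binEntropy ((M - R⁻¹)⁻¹) ≤ Real.binEntropy M⁻¹ + ε / 2 := h1.le
    nlinarith
  exact ⟨N, hN, by omega, h10⟩

/-- If `ρ_K ≥ M` then the growth up to `K` is small. -/
theorem key {M : ℝ} (hM : 2 < M) {ε : ℝ} (hε : 0 < ε) :
    ∃ K0 : ℕ, ∀ K ≥ K0, M ≤ rho K →
      ∏ k ∈ Finset.Icc 1 K, rho k ≤ 2 * Real.exp (K * (2 * Real.binEntropy M⁻¹ + ε)) := by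
  obtain ⟨K0, hK0⟩ := keyN hM hε
  refine ⟨K0, fun K hK hρ => ?_⟩
  obtain ⟨hK1, h⟩ := hK0 K hK
  obtain ⟨N, hN, hRN, h10⟩ := h hρ
  have h11 := prod_rho_le' hK1
  rw [hN] at h11
  push_cast at h11
  have h12 : (1 : ℝ) ≤ N := by
    have : 1 ≤ N := by
      have := ramsey_pos hK1 hK1
      omega
    exact_mod_cast this
  linarith

/-- If `ρ_K ≥ M` infinitely often then `2 h(1/M) ≥ (log 2)/2`. -/
theorem eventually_lt {M : ℝ} (hM : 2 < M) (h : 4 * Real.binEntropy M⁻¹ < Real.log 2) :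
    ∀ᶠ K in atTop, rho K < M := by
  obtain ⟨K0, hK0⟩ := keyN hM (ε := (Real.log 2 - 4 * Real.binEntropy M⁻¹) / 4) (by linarith)
  refine eventually_atTop.2 ⟨max 4 K0, fun K hK => ?_⟩
  by_contra hcon
  push Not at hcon
  obtain ⟨hK1, h1⟩ := hK0 K ((le_max_right _ _).trans hK)
  obtain ⟨N, -, hRN, h2⟩ := h1 hcon
  have h3 := two_pow_le K ((le_max_left _ _).trans hK)
  have h4 : (2 : ℝ) ^ K ≤ (N : ℝ) ^ 2 := by
    have : 2 ^ K ≤ N ^ 2 := h3.trans (Nat.pow_le_pow_left hRN 2)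
    exact_mod_cast this
  have h5 : (N : ℝ) ^ 2 ≤ Real.exp (K * (2 * Real.binEntropy M⁻¹ +
      (Real.log 2 - 4 * Real.binEntropy M⁻¹) / 4)) ^ 2 := by
    gcongr
  rw [← Real.exp_nat_mul] at h5
  have h6 := Real.log_le_log (by positivity) (h4.trans h5)
  rw [Real.log_exp, Real.log_pow] at h6
  have hK' : (1 : ℝ) ≤ K := by exact_mod_cast hK1
  push_cast at h6
  nlinarith

end Pool.Agent.RkG
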