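import Mathlib
import Pool.Agent.RkG.Bound

/-!
# The geometric mean of the ratios
-/

namespace Pool.Agent.RkG

open Finset Filter Pool.Agent.Hhelper59.Rk

theorem prod_mono {s t : Finset ℕ} (hst : s ⊆ t) {f : ℕ → ℝ} (h : ∀ i ∈ t, 1 ≤ f i) :
    ∏ i ∈ s, f i ≤ ∏ i ∈ t, f i := by
  classical
  rw [← Finset.prod_sdiff hst]
  have h1 : 1 ≤ ∏ i ∈ t \ s, f i :=
    Finset.one_le_prod fun i hi => h i (Finset.sdiff_subset hi)
  have h2 : 0 ≤ ∏ i ∈ s, f i :=
    Finset.prod_nonneg fun i hi => zero_le_one.trans (h i (hst hi))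
  nlinarith

theorem rho_ge {K k : ℕ} (hk : k ∈ Finset.Icc 1 K) : 1 ≤ rho k :=
  rho_ge_one (Finset.mem_Icc.mp hk).1

theorem entropy_lt {c : ℝ} (hc : 2 < c)
    (h : c * Real.log c < 2 * (c - 1) * Real.log (c - 1)) :
    2 * Real.binEntropy c⁻¹ < Real.log c := by
  have hc0 : 0 < c := by linarith
  have hc1 : 0 < c - 1 := by linarith
  have e : Real.binEntropy c⁻¹ = Real.log c - (1 - c⁻¹) * Real.log (c - 1) := by
    have e1 : (1 - c⁻¹)⁻¹ = c / (c - 1) := by
      field_simp
    rw [Real.binEntropy, inv_inv, e1, Real.log_div hc0.ne' hc1.ne']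
    ring
  rw [e]
  have h2 : Real.log c < 2 * (1 - c⁻¹) * Real.log (c - 1) := by
    have e3 : c * (2 * (1 - c⁻¹) * Real.log (c - 1)) = 2 * (c - 1) * Real.log (c - 1) := by
      field_simp
    rw [← e3] at h
    exact lt_of_mul_lt_mul_left h hc0.le
  linarith

theorem prod_bound {c : ℝ} (hc : 2 < c)
    (h : c * Real.log c < 2 * (c - 1) * Real.log (c - 1)) :
    ∃ C : ℝ, 0 < C ∧ ∀ K : ℕ, ∏ k ∈ Finset.Icc 1 K, rho k ≤ C * c ^ K := by
  have hlt := entropy_lt hc h
  obtain ⟨K0, hK0⟩ := key hc (ε := Real.log c - 2 * Real.binEntropy c⁻¹) (by linarith)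
  have hc0 : 0 < c := by linarith
  refine ⟨2 + ∏ k ∈ Finset.Icc 1 K0, rho k, ?_, fun K => ?_⟩
  · have : 1 ≤ ∏ k ∈ Finset.Icc 1 K0, rho k := Finset.one_le_prod fun i hi => rho_ge hi
    linarith
  · have hP : 1 ≤ ∏ k ∈ Finset.Icc 1 K0, rho k := Finset.one_le_prod fun i hi => rho_ge hi
    induction K with
    | zero =>
      simp only [show Finset.Icc 1 0 = (∅ : Finset ℕ) from rfl, Finset.prod_empty, pow_zero,
        mul_one]
      linarith
    | succ K ih =>
      have hcK : 1 ≤ c ^ (K + 1) := one_le_pow₀ (by linarith)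
      by_cases hK : K + 1 ≤ K0
      · have h1 : ∏ k ∈ Finset.Icc 1 (K + 1), rho k ≤ ∏ k ∈ Finset.Icc 1 K0, rho k :=
          prod_mono (Finset.Icc_subset_Icc_right hK) fun i hi => rho_ge hi
        nlinarith
      · push Not at hK
        by_cases hρ : c ≤ rho (K + 1)
        · have h2 := hK0 (K + 1) hK.le hρ
          have e : ((K + 1 : ℕ) : ℝ) * (2 * Real.binEntropy c⁻¹ +
              (Real.log c - 2 * Real.binEntropy c⁻¹)) = ((K + 1 : ℕ) : ℝ) * Real.log c := by
            ring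
          rw [e, Real.exp_nat_mul, Real.exp_log hc0] at h2
          nlinarith
        · push Not at hρ
          rw [Finset.prod_Icc_succ_top (by omega), pow_succ, ← mul_assoc]
          have h3 : 1 ≤ rho (K + 1) := rho_ge_one (by omega)
          exact mul_le_mul ih hρ.le (by linarith) (by positivity)

theorem density {M : ℝ} (hM : 2 < M) {ε : ℝ} (hε : 0 < ε) :
    ∃ C : ℝ, ∀ K : ℕ, (((Finset.Icc 1 K).filter (fun k => M ≤ rho k)).card : ℝ) * Real.log M ≤
      (2 * Real.binEntropy M⁻¹ + ε) * K + C := by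
  classical
  obtain ⟨K0, hK0⟩ := key hM hε
  have hM0 : 0 < M := by linarith
  have hlM : 0 < Real.log M := Real.log_pos (by linarith)
  have hlog2 : 0 < Real.log 2 := Real.log_pos (by norm_num)
  have hH : 0 ≤ Real.binEntropy M⁻¹ :=
    Real.binEntropy_nonneg (by positivity) (inv_le_one_of_one_le₀ (by linarith))
  refine ⟨Real.log 2 + K0 * Real.log M, fun K => ?_⟩
  set S := (Finset.Icc 1 K).filter (fun k => M ≤ rho k) with hS
  rcases S.eq_empty_or_nonempty with h0 | h0
  · rw [h0, Finset.card_empty]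
    simp only [Nat.cast_zero, zero_mul]
    positivity
  · set m := S.max' h0 with hm
    have hmS : m ∈ S := Finset.max'_mem S h0
    rw [hS, Finset.mem_filter, Finset.mem_Icc] at hmS
    have hsub : S ⊆ Finset.Icc 1 m := by
      intro x hx
      have h1 := Finset.le_max' S x hx
      rw [hS, Finset.mem_filter, Finset.mem_Icc] at hx
      exact Finset.mem_Icc.mpr ⟨hx.1.1, h1⟩
    have hmK : (m : ℝ) ≤ K := by exact_mod_cast hmS.1.2
    by_cases hmK0 : K0 ≤ m
    · have h1 := hK0 m hmK0 hmS.2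
      have h2 : ∏ k ∈ S, rho k ≤ ∏ k ∈ Finset.Icc 1 m, rho k :=
        prod_mono hsub fun i hi => rho_ge hi
      have h3 : M ^ S.card ≤ ∏ k ∈ S, rho k := by
        rw [← Finset.prod_const]
        refine Finset.prod_le_prod (fun _ _ => hM0.le) fun i hi => ?_
        rw [hS, Finset.mem_filter] at hi
        exact hi.2
      have h4 := h3.trans (h2.trans h1)
      have h5 := Real.log_le_log (by positivity) h4
      rw [Real.log_pow, Real.log_mul (by norm_num) (Real.exp_pos _).ne', Real.log_exp] at h5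
      have h6 : (m : ℝ) * (2 * Real.binEntropy M⁻¹ + ε) ≤ (2 * Real.binEntropy M⁻¹ + ε) * K := by
        rw [mul_comm]
        gcongr
      have h7 : 0 ≤ (K0 : ℝ) * Real.log M := by positivity
      linarith
    · push Not at hmK0
      have h1 : S.card ≤ K0 := by
        have := Finset.card_le_card hsub
        rw [Nat.card_Icc] at this
        omega
      have h2 : (S.card : ℝ) * Real.log M ≤ K0 * Real.log M := by
        have : (S.card : ℝ) ≤ K0 := by exact_mod_cast h1
        gcongr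
      have h3 : 0 ≤ (2 * Real.binEntropy M⁻¹ + ε) * K := by positivity
      linarith

/-- If the products grow at most like `C c^K`, infinitely many factors are below `c + δ`. -/
theorem frequently_lt {c : ℝ} (hc : 1 ≤ c) {C : ℝ}
    (h : ∀ K : ℕ, ∏ k ∈ Finset.Icc 1 K, rho k ≤ C * c ^ K) {δ : ℝ} (hδ : 0 < δ) :
    ∃ᶠ k in atTop, rho k < c + δ := by
  rw [Filter.Frequently]
  intro hev
  obtain ⟨K1, hK1⟩ := eventually_atTop.1 hev
  have hge : ∀ j : ℕ, (c + δ) ^ j ≤ ∏ k ∈ Finset.Icc 1 (K1 + j), rho k := by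
    intro j
    induction j with
    | zero =>
      rw [pow_zero]
      exact Finset.one_le_prod fun i hi => rho_ge hi
    | succ j ih =>
      rw [← add_assoc, Finset.prod_Icc_succ_top (by omega), pow_succ]
      have h1 : c + δ ≤ rho (K1 + j + 1) := not_lt.mp (hK1 (K1 + j + 1) (by omega))
      exact mul_le_mul ih h1 (by linarith)
        (zero_le_one.trans (Finset.one_le_prod fun i hi => rho_ge hi))
  have hc0 : 0 < c := by linarith
  have hr : 1 < (c + δ) / c := by
    rw [lt_div_iff₀ hc0]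
    linarith
  have ht := tendsto_pow_atTop_atTop_of_one_lt hr
  obtain ⟨j, hj⟩ := (ht.eventually_gt_atTop (C * c ^ K1)).exists
  have h1 := (hge j).trans (h (K1 + j))
  rw [pow_add, ← mul_assoc] at h1
  rw [div_pow, lt_div_iff₀ (by positivity)] at hj
  linarith

theorem limit_le {c : ℝ} (hc : 1 ≤ c) {C : ℝ}
    (h : ∀ K : ℕ, ∏ k ∈ Finset.Icc 1 K, rho k ≤ C * c ^ K) {L : ℝ}
    (hL : Tendsto rho atTop (nhds L)) : L ≤ c := by
  by_contra hcon
  push Not at hcon
  have h1 := frequently_lt hc h (δ := (L - c) / 2) (by linarith)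
  have h2 := hL.eventually (lt_mem_nhds (show c + (L - c) / 2 < L by linarith))
  obtain ⟨k, hk1, hk2⟩ := (h1.and_eventually h2).exists
  linarith

theorem cond_27_8 : (27 / 8 : ℝ) * Real.log (27 / 8) <
    2 * ((27 / 8 : ℝ) - 1) * Real.log ((27 / 8 : ℝ) - 1) := by
  have h : (27 : ℝ) * Real.log (27 / 8) < 38 * Real.log (19 / 8) := by
    have h1 : Real.log ((27 / 8 : ℝ) ^ 27) < Real.log ((19 / 8 : ℝ) ^ 38) :=
      Real.log_lt_log (by norm_num) (by norm_num)
    rw [Real.log_pow, Real.log_pow] at h1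
    exact_mod_cast h1
  have e : ((27 / 8 : ℝ) - 1) = 19 / 8 := by norm_num
  rw [e]
  linarith

theorem eventually_lt_24 : ∀ᶠ K in atTop, rho K < 24 := by
  refine eventually_lt (by norm_num) ?_
  have e : Real.binEntropy (24 : ℝ)⁻¹ = Real.log 24 - (23 / 24) * Real.log 23 := by
    have e1 : (1 - (24 : ℝ)⁻¹)⁻¹ = 24 / 23 := by norm_num
    rw [Real.binEntropy, inv_inv, e1, Real.log_div (by norm_num) (by norm_num)]
    ring
  have h : 96 * Real.log 24 < 24 * Real.log 2 + 92 * Real.log 23 := by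
    have h1 : Real.log ((24 : ℝ) ^ 96) < Real.log ((2 : ℝ) ^ 24 * (23 : ℝ) ^ 92) :=
      Real.log_lt_log (by norm_num) (by norm_num)
    rw [Real.log_mul (by norm_num) (by norm_num), Real.log_pow, Real.log_pow, Real.log_pow] at h1
    exact_mod_cast h1
  rw [e]
  linarith

end Pool.Agent.RkG
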